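import Pool.Agent.W661.RC.Stm

/-!
# COV: coverage when the class is empty
-/

set_option autoImplicit false

namespace Pool.Agent.W410.RC.COV

open Matrix Pool.Agent.W661.RC
open scoped ComplexOrder MatrixOrder

/-- The real part of the trace of a product of two positive semidefinite matrices is
nonnegative. -/
lemma tr_mul_nonneg {d : ℕ} {A B : Mt d} (hA : A.PosSemidef) (hB : B.PosSemidef) :
    0 ≤ tr (A * B) := by
  obtain ⟨X, hX⟩ := CStarAlgebra.nonneg_iff_eq_star_mul_self.mp hA.nonneg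
  have h1 : (X * B * Xᴴ).PosSemidef := hB.mul_mul_conjTranspose_same X
  have h2 : Matrix.trace (A * B) = Matrix.trace (X * B * Xᴴ) := by
    rw [hX, Matrix.star_eq_conjTranspose, Matrix.mul_assoc, Matrix.trace_mul_comm,
      Matrix.mul_assoc]
  unfold tr
  rw [h2]
  exact (Complex.nonneg_iff.mp h1.trace_nonneg).1

lemma tr_add {d : ℕ} (A B : Mt d) : tr (A + B) = tr A + tr B := by
  simp [tr]

lemma tr_sub {d : ℕ} (A B : Mt d) : tr (A - B) = tr A - tr B := by
  simp [tr]

lemma tr_smul {d : ℕ} (r : ℂ) (hr : r.im = 0) (A : Mt d) : tr (r • A) = r.re * tr A := by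
  simp [tr, hr]

lemma tr_one (d : ℕ) : tr (1 : Mt d) = d := by
  simp [tr]

lemma tr_comm {d : ℕ} (A B : Mt d) : tr (A * B) = tr (B * A) := by
  unfold tr
  rw [Matrix.trace_mul_comm]

/-- Monotonicity of `tr (A · )` for positive semidefinite `A`. -/
lemma tr_mono {d : ℕ} {A B C : Mt d} (hA : A.PosSemidef) (hBC : Le B C) :
    tr (A * B) ≤ tr (A * C) := by
  have h := tr_mul_nonneg hA hBC
  rw [Matrix.mul_sub, tr_sub] at h
  linarith

lemma pr_psd {d : ℕ} {e : Mt d} (he : IsPr e) : e.PosSemidef := by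
  have h := posSemidef_conjTranspose_mul_self e
  rwa [he.1, he.2] at h

lemma pr_compl {d : ℕ} {e : Mt d} (he : IsPr e) : IsPr (1 - e) := by
  refine ⟨by rw [Matrix.conjTranspose_sub, Matrix.conjTranspose_one, he.1], ?_⟩
  have h := he.2
  simp [Matrix.mul_sub, Matrix.sub_mul, h]

lemma hs_eq {d : ℕ} (x : Mt d) : hs x = tr (xᴴ * x) := by
  unfold hs tr
  simp only [Matrix.trace, Matrix.diag, Matrix.mul_apply, Matrix.conjTranspose_apply,
    Complex.re_sum]
  rw [Finset.sum_comm]
  refine Finset.sum_congr rfl fun i _ => Finset.sum_congr rfl fun j _ => ?_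
  rw [← Complex.normSq_eq_norm_sq]
  simp [Complex.normSq_apply]

section res

variable {d : ℕ} {lam : ℝ} {Q : Mt d}

lemma pd (hl : 1 ≤ lam) (hQ : Q.PosSemidef) : (1 + (lam : ℂ) • Q).PosDef := by
  refine PosDef.one.add_posSemidef (hQ.smul ?_)
  exact_mod_cast (by linarith : (0 : ℝ) ≤ lam)

lemma gg_psd (hl : 1 ≤ lam) (hQ : Q.PosSemidef) : (gg lam Q).PosSemidef :=
  (pd hl hQ).inv.posSemidef

lemma gg_mul (hl : 1 ≤ lam) (hQ : Q.PosSemidef) : gg lam Q * (1 + (lam : ℂ) • Q) = 1 := by
  unfold gg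
  exact Matrix.nonsing_inv_mul _ ((Matrix.isUnit_iff_isUnit_det _).mp (pd hl hQ).isUnit)

lemma mul_gg (hl : 1 ≤ lam) (hQ : Q.PosSemidef) : (1 + (lam : ℂ) • Q) * gg lam Q = 1 := by
  unfold gg
  exact Matrix.mul_nonsing_inv _ ((Matrix.isUnit_iff_isUnit_det _).mp (pd hl hQ).isUnit)

lemma hh_eq (hl : 1 ≤ lam) (hQ : Q.PosSemidef) : hh lam Q = (lam : ℂ) • (Q * gg lam Q) := by
  have h := mul_gg hl hQ
  rw [Matrix.add_mul, Matrix.one_mul, Matrix.smul_mul] at h
  unfold hh
  rw [← h]
  abel_nf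

lemma hh_eq' (hl : 1 ≤ lam) (hQ : Q.PosSemidef) : hh lam Q = (lam : ℂ) • (gg lam Q * Q) := by
  have h := gg_mul hl hQ
  rw [Matrix.mul_add, Matrix.mul_one, Matrix.mul_smul] at h
  unfold hh
  rw [← h]
  abel_nf

lemma gh_psd (hl : 1 ≤ lam) (hQ : Q.PosSemidef) : (gg lam Q * hh lam Q).PosSemidef := by
  rw [hh_eq hl hQ, Matrix.mul_smul, ← Matrix.mul_assoc]
  have h1 : (gg lam Q * Q * (gg lam Q)ᴴ).PosSemidef := hQ.mul_mul_conjTranspose_same (gg lam Q)
  rw [(gg_psd hl hQ).1] at h1
  refine h1.smul ?_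
  exact_mod_cast (by linarith : (0 : ℝ) ≤ lam)

lemma hh_psd (hl : 1 ≤ lam) (hQ : Q.PosSemidef) : (hh lam Q).PosSemidef := by
  have h0 : (0 : ℂ) ≤ (lam : ℂ) := by exact_mod_cast (by linarith : (0 : ℝ) ≤ lam)
  have h2 : hh lam Q = gg lam Q * hh lam Q + hh lam Q * (hh lam Q)ᴴ := by
    have h3 : (hh lam Q)ᴴ = hh lam Q := by
      unfold hh
      rw [Matrix.conjTranspose_sub, Matrix.conjTranspose_one, (gg_psd hl hQ).1]
    rw [h3]
    have h4 : gg lam Q * hh lam Q + hh lam Q * hh lam Q = (gg lam Q + hh lam Q) * hh lam Q := by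
      rw [Matrix.add_mul]
    rw [h4]
    have h5 : gg lam Q + hh lam Q = 1 := by unfold hh; abel
    rw [h5, Matrix.one_mul]
  rw [h2]
  exact (gh_psd hl hQ).add (posSemidef_self_mul_conjTranspose _)

end res

theorem main (hL : LevP) (hI : IclP) : CovP := by
  intro d k C η δ S lam a b c c4 Q hd hη hη2 hC hl hQ ha hb hc hc4 hF hen hgh hD h1 h2 h3
  have hgp := gg_psd hl hQ
  have hhp := hh_psd hl hQ
  have hghp := gh_psd hl hQ
  set g := gg lam Q with hg
  set h := hh lam Q with hh'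
  have hhg : h = 1 - g := rfl
  have hle : Le g 1 := by
    unfold Le
    rw [← hhg]
    exact hhp
  have hd' : (0 : ℝ) < d := by exact_mod_cast hd
  obtain ⟨e, he, hcomm, hge, hle2, hene, -, -⟩ := hL d k S.u g (1 / 2) (3 / 4) S.hu hgp hle
    (by norm_num) (by norm_num) (by norm_num)
  have hep := pr_psd he
  have he1 := pr_psd (pr_compl he)
  -- hs g ≤ d
  have htrg : tr g ≤ d := by
    have := tr_mono (PosSemidef.one (n := Fin d) (R := ℂ)) hle
    rwa [Matrix.one_mul, Matrix.mul_one, tr_one] at this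
  have hsg : hs g ≤ d := by
    rw [hs_eq, hgp.1]
    have := tr_mono hgp hle
    rw [Matrix.mul_one] at this
    linarith
  have hsg0 : 0 ≤ hs g := by
    unfold hs
    positivity
  -- the energy of e
  have hk : (0 : ℝ) ≤ k := Nat.cast_nonneg k
  have hene2 : en S.u e ≤ 16 * √(k * a) * d := by
    refine hene.trans ?_
    have e1 : 2 * √(k : ℝ) / (1 / 2 * (3 / 4 - 1 / 2)) = 16 * √(k : ℝ) := by
      ring
    rw [e1]
    have e2 : √(hs g * en S.u g) ≤ √(a) * d := by
      rw [show √a * (d : ℝ) = √(a * d ^ 2) by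
        rw [Real.sqrt_mul ha, Real.sqrt_sq hd'.le]]
      apply Real.sqrt_le_sqrt
      calc hs g * en S.u g ≤ hs g * (a * d) := mul_le_mul_of_nonneg_left hen hsg0
        _ ≤ d * (a * d) := mul_le_mul_of_nonneg_right hsg (by positivity)
        _ = a * d ^ 2 := by ring
    calc 16 * √(k : ℝ) * √(hs g * en S.u g) ≤ 16 * √(k : ℝ) * (√a * d) :=
          mul_le_mul_of_nonneg_left e2 (by positivity)
      _ = 16 * √(k * a) * d := by rw [Real.sqrt_mul hk]; ring
  -- e ≤ 1
  have hele : Le e 1 := he1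
  have hδ : 0 ≤ δ := by
    by_contra hneg
    push Not at hneg
    have : δ * c4 < 0 := mul_neg_of_neg_of_pos hneg hc4
    linarith
  have hclaim : tr e < c4 * d := by
    by_contra hcon
    push Not at hcon
    have htre : 0 < tr e := lt_of_lt_of_le (by positivity) hcon
    have hX : 0 ≤ 16 * √(k * a) := by positivity
    have key1 : tr (h * e) ≤ 1 / 100 * tr e := by
      have i1 : tr (h * (((1 / 2 : ℝ) : ℂ) • e)) ≤ tr (h * g) := tr_mono hhp hge
      rw [Matrix.mul_smul, tr_smul _ (by simp), tr_comm h g] at i1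
      simp only [Complex.ofReal_re] at i1
      have i2 : 200 * b * d ≤ c4 * d := mul_le_mul_of_nonneg_right h2 hd'.le
      nlinarith
    have key2 : tr (S.D * e) ≤ c * d := by
      have := tr_mono S.hD hele
      rw [Matrix.mul_one] at this
      linarith
    have key3 : tr (S.D * S.Φ e) ≤ c * d := by
      have j1 : Le (S.Φ e) 1 := by
        unfold Le
        rw [← S.one, ← map_sub]
        exact S.pos _ he1
      have := tr_mono S.hD j1
      rw [Matrix.mul_one] at this
      linarith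
    have key4 : 16 * (c * d) ≤ δ * tr e := by
      calc 16 * (c * d) = 16 * c * d := by ring
        _ ≤ δ * c4 * d := mul_le_mul_of_nonneg_right h3 hd'.le
        _ = δ * (c4 * d) := by ring
        _ ≤ δ * tr e := mul_le_mul_of_nonneg_left hcon hδ
    obtain ⟨f', hf', -⟩ := hI d k C η δ S lam (16 * √(k * a) / c4) (1 / 100) (1 / 8) Q e
      hη.le (by linarith) hl hQ he htre (by norm_num) (by norm_num) (by norm_num)
      (by
        have : C * (16 * √(k * a) / c4) ≤ 1 / 2048 := by
          rw [← mul_div_assoc, div_le_iff₀ hc4]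
          linarith
        have h64 : ((1 : ℝ) / 8) ^ 2 = 1 / 64 := by norm_num
        rw [h64]
        linarith)
      (by
        refine hene2.trans ?_
        rw [div_mul_eq_mul_div, le_div_iff₀ hc4]
        calc 16 * √(k * a) * d * c4 = 16 * √(k * a) * (c4 * d) := by ring
          _ ≤ 16 * √(k * a) * tr e := mul_le_mul_of_nonneg_left hcon hX)
      key1
      (by
        have : √(1 / 100 : ℝ) = 1 / 10 := by
          rw [show (1 / 100 : ℝ) = (1 / 10) ^ 2 by norm_num]
          exact Real.sqrt_sq (by norm_num)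
        rw [this]
        norm_num)
      (by
        have : 0 ≤ c * d := by positivity
        linarith)
      (by linarith)
    exact hF f' hf'
  -- final computation
  have f1 : tr (g * e) ≤ tr e := by
    have := tr_mono hep hle
    rw [Matrix.mul_one, tr_comm] at this
    exact this
  have f2 : tr (g * h * e) + tr (g * h * (1 - e)) = tr (g * h) := by
    rw [← tr_add, ← Matrix.mul_add]
    congr 1
    have : e + (1 - e) = 1 := by abel
    rw [this, Matrix.mul_one]
  have f3 : 0 ≤ tr (g * h * e) := tr_mul_nonneg hghp hep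
  have f4 : tr (g * ((1 - e) * g)) ≤ tr (g * (((3 / 4 : ℝ) : ℂ) • (1 - e))) := tr_mono hgp hle2
  have f5 : tr (g * (((3 / 4 : ℝ) : ℂ) • (1 - e))) = 3 / 4 * tr (g * (1 - e)) := by
    rw [Matrix.mul_smul, tr_smul _ (by simp)]
    simp
  have f6 : tr (g * h * (1 - e)) = tr (g * (1 - e)) - tr (g * ((1 - e) * g)) := by
    have c1 : (1 - e) * g = g * (1 - e) := by
      rw [Matrix.sub_mul, Matrix.mul_sub, Matrix.one_mul, Matrix.mul_one, hcomm]
    rw [← tr_sub, c1, hhg]
    congr 1
    simp only [Matrix.mul_sub, Matrix.sub_mul, Matrix.mul_one, Matrix.mul_assoc]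
    abel
  have f7 : tr g = tr (g * e) + tr (g * (1 - e)) := by
    rw [← tr_add, ← Matrix.mul_add]
    have : e + (1 - e) = 1 := by abel
    rw [this, Matrix.mul_one]
  have f8 : tr h = d - tr g := by
    rw [hhg, tr_sub, tr_one]
  rw [f8]
  nlinarith

end Pool.Agent.W410.RC.COV
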